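import Pool.Agent.E8helper56.ZM.MeasFinal

/-!
# Partitions of zero entropy and sofic groups

Let a group `G` act by measure preserving transformations on a probability space `(X, ν)` and let
`P` be a finite measurable partition of `X`, given by the labels `f : X → Fin k`, of zero entropy:
for every finite `F ⊆ G` the Shannon entropies of the joins of the partitions `γ⁻¹ P`, `γ` in
`F ^ n`, are `o(n)` along a subsequence of the `n` (`ShannonZero`), or, weaker, for all `c, β > 0`
there are arbitrarily large `n` such that all but `β` of the points have one of at most `exp (c n)`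
names (`ZeroAlong`).  If every `g ≠ 1` changes the label of a set of points of positive measure in
some action and partition of this kind, then `G` is sofic.

In particular `G` is sofic if it acts by homeomorphisms on a totally disconnected compact metric
space with zero topological entropy in the sense of Ghys, Langevin and Walczak and every `g ≠ 1`
moves a set of positive measure for some invariant probability measure; and if it acts by
Lipschitz maps on a compact metric space of box dimension zero, again with such measures.
-/

namespace Pool.Agent.E8helper56.Variants.PartitionEntropyH56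

open MeasureTheory Pool.Agent.H21R2 Pool.Agent.E8helper56.ZE Pool.Agent.E8helper56.ZM

theorem result.{u, v} :
    (∀ (G : Type u) [Group G],
      (∀ g : G, g ≠ 1 → ∃ (X : Type v) (_ : MeasurableSpace X) (_ : MulAction G X)
        (ν : Measure X) (k : ℕ) (f : X → Fin k),
        IsProbabilityMeasure ν ∧ (∀ h : G, MeasurePreserving (fun x : X => h • x) ν ν) ∧
        Measurable f ∧ (ShannonZero (G := G) ν f ∨ ∀ F : Finset G, ZeroAlong ν f (F : Set G)) ∧
        0 < ν {x | f (g • x) ≠ f x}) → IsSofic G) ∧
    (∀ (G : Type u) (X : Type v) [Group G] [MetricSpace X] [CompactSpace X] [MeasurableSpace X]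
      [BorelSpace X] [MulAction G X] [ContinuousConstSMul G X],
      (∀ g : G, g ≠ 1 → ∃ ν : Measure X, IsProbabilityMeasure ν ∧
        (∀ h : G, MeasurePreserving (fun x : X => h • x) ν ν) ∧ 0 < ν {x | g • x ≠ x}) →
      ((TotallyDisconnectedSpace X ∧ ZeroEntropy G X) ∨
        ((∀ τ : ℝ, 0 < τ → ∃ C : ℝ, PackBound X C τ) ∧ AllLip G X)) → IsSofic G) := by
  refine ⟨fun G _ h => sofic_of_partitions fun g hg => ?_, fun G X _ _ _ _ _ _ _ h hz => ?_⟩
  · obtain ⟨X, _, _, ν, k, f, hp, hG, hf, hS, hpos⟩ := h g hg
    refine ⟨X, inferInstance, inferInstance, ν, k, f, hp, hG, hf, fun F => ?_, hpos⟩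
    rcases hS with hS | hS
    · exact zeroAlong_of_shannon hf (fun g => (hG g).measurable) hS F
    · exact hS F
  · rcases hz with ⟨_, hz⟩ | ⟨hP, hL⟩
    · exact sofic_of_invariant hz h
    · have := totallyDisconnected_of_pack hP
      exact sofic_of_invariant (zero_of_dim_zero hP hL) h

end Pool.Agent.E8helper56.Variants.PartitionEntropyH56
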