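import Pool.Agent.E8helper56.ZE.Lip

/-!
# Groups with zero entropy actions are hyperlinear

Let a group `G` act by homeomorphisms on a compact metric space `X` with zero topological entropy
in the sense of Ghys, Langevin and Walczak (`ZeroEntropy`): for every finite `F ⊆ G` and every
`ε > 0` the number of points which are pairwise `ε`-separated by the products of `n` elements of
`F` grows subexponentially (along a subsequence of the `n`).  Suppose that `MovesOrbits G X`: every
`g ≠ 1` moves some point of every orbit in some nonempty closed invariant set `S` (which may depend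
on `g`); this is so if the action is minimal and faithful, or free, or if `G` is simple and has no
common fixed point, and more generally if every `g ≠ 1` moves an almost periodic point or if no
nontrivial normal subgroup has a common fixed point.

Then `G` is hyperlinear, and `G` is sofic if `X` is totally disconnected.
-/

namespace Pool.Agent.E8helper56.Variants.ZeroEntropyH56

open Pool.Agent.H21R2 Pool.Agent.E8helper56.ZE

theorem result.{u, v} :
    (∀ (G : Type u) (X : Type v) [Group G] [MetricSpace X] [CompactSpace X] [MulAction G X]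
      [ContinuousConstSMul G X], MovesOrbits G X →
      (ZeroEntropy G X → IsHyperlinear G ∧ (TotallyDisconnectedSpace X → IsSofic G)) ∧
      ((∃ C D : ℝ, PackBound X C D) → SlowLip G X → IsHyperlinear G) ∧
      ((∀ τ : ℝ, 0 < τ → ∃ C : ℝ, PackBound X C τ) → AllLip G X → IsSofic G)) ∧
    (∀ (G : Type u) (X : Type v) [Group G] [TopologicalSpace X] [T2Space X] [Nonempty X]
      [MulAction G X] [ContinuousConstSMul G X],
      (MulAction.IsMinimal G X → FaithfulSMul G X → MovesOrbits G X) ∧
      ((∀ g : G, g ≠ 1 → ∃ x : X, g • x ≠ x ∧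
        ∀ y ∈ closure (MulAction.orbit G x), x ∈ closure (MulAction.orbit G y)) →
        MovesOrbits G X) ∧
      ((∀ g : G, g ≠ 1 → ∀ x : X, g • x ≠ x) → MovesOrbits G X) ∧
      (IsSimpleGroup G → (∀ x : X, ∃ g : G, g • x ≠ x) → MovesOrbits G X) ∧
      ((∀ N : Subgroup G, N.Normal → N ≠ ⊥ → ∀ x : X, ∃ k ∈ N, k • x ≠ x) →
        MovesOrbits G X)) := by
  refine ⟨fun G X _ _ _ _ _ hm => ⟨fun hz => ⟨hyperlinear_of_zero hz hm, fun _ =>
    sofic_of_zero hz hm⟩, fun ⟨C, D, hP⟩ hL => hyperlinear_of_zero (zero_of_slowLip hP hL) hm,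
    fun hP hL => ?_⟩, fun G X _ _ _ _ _ _ => ⟨fun _ _ => ?_, moves_of_ap, fun hfree => ?_,
    fun hs hfix => ?_, moves_of_normal⟩⟩
  · have := totallyDisconnected_of_pack hP
    exact sofic_of_zero (zero_of_dim_zero hP hL) hm
  · refine moves_of_ap fun g hg => ?_
    have h1 : ∃ x : X, g • x ≠ x := by
      by_contra hcon
      push Not at hcon
      exact hg (FaithfulSMul.eq_of_smul_eq_smul fun x : X => by rw [hcon x, one_smul])
    obtain ⟨x, hx⟩ := h1
    exact ⟨x, hx, fun y _ => (MulAction.dense_orbit G y) x⟩
  · refine moves_of_normal fun N _ hN x => ?_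
    obtain ⟨k, hk⟩ := Subgroup.ne_bot_iff_exists_ne_one.1 hN
    exact ⟨k.1, k.2, hfree k.1 (fun h => hk (Subtype.ext h)) x⟩
  · refine moves_of_normal fun N hN hNb x => ?_
    obtain ⟨g, hg⟩ := hfix x
    have : N = ⊤ := (hN.eq_bot_or_eq_top).resolve_left hNb
    exact ⟨g, by rw [this]; trivial, hg⟩

end Pool.Agent.E8helper56.Variants.ZeroEntropyH56
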